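import Pool.Agent.Work.MP_3020f5_gt.Main

namespace Pool.Agent.Results.MP_3020f5_gt.SigmaConc

open Pool.Agent.Work.MP_3020f5_gt

/-- Q2: the scaling quotient `Σ`, with the quotient of the concentration topology, is
contractible. -/
theorem result : @ContractibleSpace Sigma (sigmaTopology dconc) :=
  goodDist_dconc.contractible

end Pool.Agent.Results.MP_3020f5_gt.SigmaConc
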